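import Pool.Agent.helper70.Oct.Defs
import Pool.Agent.helper17.Oct.A1
import Pool.Agent.helper26.Oct.A2
import Pool.Agent.helper39.Oct.B
import Pool.Agent.helper41.Oct.C1
import Pool.Agent.helper25.Oct.C2
import Pool.Agent.helper46.Oct.D
import Pool.Agent.helper39.Oct.E1
import Pool.Agent.helper69.Oct.E2
import Pool.Agent.helper19.Oct.F1
import Pool.Agent.helper52.Oct.F2
import Pool.Agent.helper86.Oct.G
import Pool.Agent.helper12.Oct.H
import Pool.Agent.helper26.Oct.I
import Pool.Agent.helper52.Oct.K
import Pool.Agent.helper26.Oct.L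

/-!
# All the modules of the octic project

`Oct.main : Comb ct → F.IsHomogeneous d → Even d → AnaOK F ct.sp ct.cols →
HasArrangement F ct.par.length (nestOf ct.par)` and `Oct.perturb`.

Axioms of `Oct.main`, `Oct.cell_rank`, `Oct.perturb`: propext, Classical.choice, Quot.sound.
-/
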